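import Pool.Agent.Helper41.Cluster4.Goals

/-!
Points of a given type in a given direction: Prop LemD.
-/

set_option autoImplicit false

namespace Pool.Agent.Helper54.Cluster4

open Module Pool.Agent.Helper65.Delone Pool.Agent.Helper41.Cluster4
open scoped RealInnerProductSpace

variable {E : Type*} [NormedAddCommGroup E] [InnerProductSpace ℝ E] [FiniteDimensional ℝ E]

omit [FiniteDimensional ℝ E] in
theorem iso_symm {X : Set E} {L : ℝ} {y : E} {A : E ≃ₗᵢ[ℝ] E} (h : Iso X L y y A) :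
    Iso X L y y A.symm := by
  intro v hv
  have h1 := h (A.symm v) (by rw [A.symm.norm_map]; exact hv)
  rw [A.apply_symm_apply] at h1
  exact h1.symm

/-- an isometry that fixes the orthogonal complement preserves the subspace -/
theorem map_mem {U : Submodule ℝ E} {B : E ≃ₗᵢ[ℝ] E} (hB : ∀ w ∈ Uᗮ, B w = w) {v : E}
    (hv : v ∈ U) : B v ∈ U := by
  rw [← Submodule.orthogonal_orthogonal U]
  rw [Submodule.mem_orthogonal]
  intro w hw
  rw [← hB w hw, B.inner_map_map]
  exact Submodule.inner_left_of_mem_orthogonal hv hw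

/-- the real computation -/
theorem real_step {α β μ b F p q n : ℝ} (hb : 0 < b) (hμ : 0 < μ) (hμ' : μ ≤ 4 / 225)
    (hF : F = μ * (4 - μ) * b ^ 2) (hp : 0 ≤ p) (hq : 0 ≤ q) (hpq : p + q = μ * (α * b ^ 2))
    (hqp : q - p = β * F) (hn : n ^ 2 = α ^ 2 * b ^ 2 + β ^ 2 * F) :
    99 / 100 * b * n ≤ α * b ^ 2 := by
  have hb2 : 0 < b ^ 2 := by positivity
  have h1 : 0 ≤ α * b ^ 2 := by
    by_contra hcon
    push Not at hcon
    have : μ * (α * b ^ 2) < 0 := mul_neg_of_pos_of_neg hμ hcon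
    linarith
  have hα : 0 ≤ α := by
    by_contra hcon
    push Not at hcon
    have : α * b ^ 2 < 0 := mul_neg_of_neg_of_pos hcon hb2
    linarith
  have h4 : 0 < 4 - μ := by linarith
  -- |β| (4 - μ) ≤ α
  have h2 : β * (4 - μ) ≤ α := by
    have h3 : β * F ≤ μ * (α * b ^ 2) := by linarith
    rw [hF] at h3
    have h5 : (μ * b ^ 2) * (β * (4 - μ)) ≤ (μ * b ^ 2) * α := by linarith
    exact le_of_mul_le_mul_left h5 (by positivity)
  have h3 : -(β * (4 - μ)) ≤ α := by
    have h3 : -(β * F) ≤ μ * (α * b ^ 2) := by linarith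
    rw [hF] at h3
    have h5 : (μ * b ^ 2) * (-(β * (4 - μ))) ≤ (μ * b ^ 2) * α := by linarith
    exact le_of_mul_le_mul_left h5 (by positivity)
  have h5 : (β * (4 - μ)) ^ 2 ≤ α ^ 2 := by
    apply sq_le_sq'
    · linarith
    · exact h2
  -- n^2 (4 - μ) ≤ 4 α^2 b^2
  have h6 : n ^ 2 * (4 - μ) ≤ 4 * (α ^ 2 * b ^ 2) := by
    rw [hn, hF]
    have h7 : (μ * b ^ 2) * (β * (4 - μ)) ^ 2 ≤ (μ * b ^ 2) * α ^ 2 :=
      mul_le_mul_of_nonneg_left h5 (by positivity)
    nlinarith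
  have h8 : (99 / 100 * b * n) ^ 2 ≤ (α * b ^ 2) ^ 2 := by
    have h9 : 0 ≤ n ^ 2 * (4 / 225 - μ) := mul_nonneg (by positivity) (by linarith)
    have h10 : n ^ 2 * (4 - 4 / 225) ≤ 4 * (α ^ 2 * b ^ 2) := by linarith
    have h11 : (99 / 100) ^ 2 * n ^ 2 ≤ α ^ 2 * b ^ 2 := by
      have : 0 ≤ n ^ 2 := by positivity
      linarith
    have h12 := mul_le_mul_of_nonneg_left h11 hb2.le
    calc (99 / 100 * b * n) ^ 2 = b ^ 2 * ((99 / 100) ^ 2 * n ^ 2) := by ring
      _ ≤ b ^ 2 * (α ^ 2 * b ^ 2) := h12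
      _ = (α * b ^ 2) ^ 2 := by ring
  exact le_trans (le_abs_self _) (abs_le_of_sq_le_sq h8 h1)

theorem lemD (hf : FiniteNear E) : LemD E := by
  intro _ X D R W Q c hD hS hFr hWL hC x hx u hu
  have hW := hFr.W_pos
  -- the type
  set U := Q x with hU
  set c₀ := c x with hc₀
  have hbx : ‖c₀ - x‖ ^ 2 = W ^ 2 / 2 := hC.norm x hx
  have hb : 0 < ‖c₀ - x‖ := by
    have h1 : 0 < ‖c₀ - x‖ ^ 2 := by
      rw [hbx]
      positivity
    by_contra hcon
    have h2 : ‖c₀ - x‖ = 0 := le_antisymm (not_lt.1 hcon) (norm_nonneg _)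
    rw [h2] at h1
    norm_num at h1
  set b := ‖c₀ - x‖ with hbdef
  let T : Set E := {z | z ∈ X ∧ c z = c₀ ∧ Q z = U}
  have hTc : ∀ z ∈ T, z - c₀ ∈ U ∧ ‖z - c₀‖ = b := by
    rintro z ⟨hz, hcz, hQz⟩
    constructor
    · have h1 := hC.mem z hz
      rw [hcz, hQz] at h1
      have h2 := U.neg_mem h1
      rwa [neg_sub] at h2
    · have h1 := hC.norm z hz
      rw [hcz, ← hbx] at h1
      rw [norm_sub_rev]
      exact (sq_eq_sq₀ (norm_nonneg _) (norm_nonneg _)).1 h1
  have hTfin : T.Finite := by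
    refine (hf X D hD hS.sep x (2 * b)).subset ?_
    intro z hz
    refine ⟨hz.1, ?_⟩
    have h1 := (hTc z hz).2
    have h2 : x - z = (x - c₀) + (c₀ - z) := by abel
    rw [h2]
    refine (norm_add_le _ _).trans ?_
    rw [norm_sub_rev x c₀, norm_sub_rev c₀ z, h1]
    linarith
  have hTx : x ∈ T := ⟨hx, rfl, rfl⟩
  obtain ⟨y, hy, hyW, hyn⟩ := hFr.partner x hx
  obtain ⟨hcy, hQy⟩ := hC.partner x hx y hy hyW hyn
  obtain ⟨A, hA⟩ := hFr.S_ne y hy
  have hAfix := hFr.S_fix y hy A hA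
  obtain ⟨hAiso, hA1, hAs⟩ := hA
  have hcyU : c₀ - y ∈ Uᗮ := by
    have h1 := hC.mem y hy
    rw [hcy, hQy] at h1
    exact h1
  have hby : ‖c₀ - y‖ ^ 2 = W ^ 2 / 2 := by
    have h1 := hC.norm y hy
    rwa [hcy] at h1
  have hA0 : ∀ w ∈ Uᗮ, A w = w := fun w hw => (hAfix w).2 (by rw [hQy]; exact hw)
  have hA0' : ∀ w ∈ Uᗮ, A.symm w = w := by
    intro w hw
    conv_lhs => rw [← hA0 w hw]
    exact A.symm_apply_apply w
  -- claim (1)
  have claim : ∀ B : E ≃ₗᵢ[ℝ] E, Iso X (2 * R) y y B → (∀ w ∈ Uᗮ, B w = w) →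
      ∀ z ∈ T, c₀ + B (z - c₀) ∈ T := by
    intro B hB hB0 z hz
    obtain ⟨hzU, hzb⟩ := hTc z hz
    have hBU : B (z - c₀) ∈ U := map_mem hB0 hzU
    have h1 : z - y = (z - c₀) + (c₀ - y) := by abel
    have h2 : ‖z - y‖ ^ 2 = W ^ 2 := by
      rw [h1, norm_add_sq_real, Submodule.inner_right_of_mem_orthogonal hzU hcyU, hzb, hbx, hby]
      ring
    have h3 : ‖z - y‖ = W := (sq_eq_sq₀ (norm_nonneg _) hW.le).1 h2
    have h4 : B (z - y) = B (z - c₀) + (c₀ - y) := by
      rw [h1, map_add, hB0 _ hcyU]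
    have h5 : y + B (z - y) = c₀ + B (z - c₀) := by
      rw [h4]
      abel
    have h6 : c₀ + B (z - c₀) ∈ X := by
      rw [← h5]
      refine (hB (z - y) (by rw [h3]; exact hFr.W_le)).1 ?_
      have h7 : y + (z - y) = z := by abel
      rw [h7]
      exact hz.1
    have h7 : c (c₀ + B (z - c₀)) = c₀ := by
      have h8 := hC.transport y hy y hy B hB z hz.1 (by rw [h3]; linarith)
      rw [h5, hz.2.1, hB0 _ hcyU] at h8
      rw [h8]
      abel
    refine ⟨h6, h7, ?_⟩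
    rcases hC.same x hx _ h6 h7 with h8 | h8
    · exact h8
    · exfalso
      have h9 := hC.mem _ h6
      rw [h7, h8] at h9
      have h10 : c₀ - (c₀ + B (z - c₀)) = -B (z - c₀) := by abel
      rw [h10] at h9
      have h11 : B (z - c₀) ∈ Uᗮ := by
        have := (Uᗮ).neg_mem h9
        rwa [neg_neg] at this
      have h12 : ⟪B (z - c₀), B (z - c₀)⟫ = 0 := Submodule.inner_right_of_mem_orthogonal hBU h11
      rw [inner_self_eq_zero] at h12
      have h13 : ‖B (z - c₀)‖ = 0 := by rw [h12, norm_zero]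
      rw [B.norm_map, hzb] at h13
      linarith
  -- a maximal point
  obtain ⟨z, hzT, hmax⟩ := Set.exists_max_image T (fun z => ⟪z - c₀, u⟫) hTfin ⟨x, hTx⟩
  refine ⟨z, hzT.1, hzT.2.1, hzT.2.2, ?_⟩
  obtain ⟨heU, heb⟩ := hTc z hzT
  set e := z - c₀ with he
  have hm1 := hmax _ (claim A hAiso hA0 z hzT)
  have hm2 := hmax _ (claim A.symm (iso_symm hAiso) hA0' z hzT)
  simp only [add_sub_cancel_left] at hm1 hm2
  rw [← he] at hm1 hm2
  have hAeU : A e ∈ U := map_mem hA0 heU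
  have hAeU' : A.symm e ∈ U := map_mem hA0' heU
  have hnA : ‖A e‖ = b := by rw [A.norm_map, heb]
  have hnA' : ‖A.symm e‖ = b := by rw [A.symm.norm_map, heb]
  have hee : ⟪e, e⟫ = b ^ 2 := by rw [real_inner_self_eq_norm_sq, heb]
  have hAA : ⟪A e, A e⟫ = b ^ 2 := by rw [real_inner_self_eq_norm_sq, hnA]
  have hAA' : ⟪A.symm e, A.symm e⟫ = b ^ 2 := by rw [real_inner_self_eq_norm_sq, hnA']
  have hsw : ⟪A.symm e, e⟫ = ⟪A e, e⟫ := by
    have h1 := A.inner_map_map (A.symm e) e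
    rw [A.apply_symm_apply] at h1
    rw [← h1, real_inner_comm]
  set f := A e - A.symm e with hf0
  set g := A e + A.symm e with hg0
  have hfU : f ∈ U := U.sub_mem hAeU hAeU'
  have hgU : g ∈ U := U.add_mem hAeU hAeU'
  have hfe : ⟪e, f⟫ = 0 := by
    rw [hf0, inner_sub_right, real_inner_comm, real_inner_comm (A.symm e) e, hsw, sub_self]
  have hfg : ⟪f, g⟫ = 0 := by
    rw [hf0, hg0, inner_sub_left, inner_add_right, inner_add_right, hAA, hAA',
      real_inner_comm (A e) (A.symm e)]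
    ring
  have hAne : A e ≠ e := by
    intro h
    have h1 := (hAfix e).1 h
    rw [hQy] at h1
    have h2 : ⟪e, e⟫ = 0 := Submodule.inner_right_of_mem_orthogonal heU h1
    rw [hee] at h2
    nlinarith
  have hsmall : ‖A e - e‖ ^ 2 ≤ 4 / 225 * b ^ 2 := by
    have h1 := hAs e
    rw [heb] at h1
    have h2 := pow_le_pow_left₀ (norm_nonneg _) h1 2
    calc ‖A e - e‖ ^ 2 ≤ (2 / 15 * b) ^ 2 := h2
      _ = 4 / 225 * b ^ 2 := by ring
  have hf_ne : f ≠ 0 := by
    intro h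
    have h1 : A e = A.symm e := sub_eq_zero.1 h
    have h2 : A (e + A e) = e + A e := by
      rw [map_add]
      conv_lhs => rw [h1, A.apply_symm_apply]
      rw [h1]
      abel
    have h3 := (hAfix _).1 h2
    rw [hQy] at h3
    have h4 : ⟪e + A e, e + A e⟫ = 0 :=
      Submodule.inner_right_of_mem_orthogonal (U.add_mem heU hAeU) h3
    rw [inner_self_eq_zero] at h4
    have h5 : A e = -e := by
      rw [eq_neg_iff_add_eq_zero, add_comm]
      exact h4
    have h6 : A e - e = (-2 : ℝ) • e := by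
      rw [h5]
      module
    rw [h6, norm_smul, heb] at hsmall
    norm_num at hsmall
    nlinarith
  have he_ne : e ≠ 0 := by
    intro h
    rw [h, norm_zero] at heb
    linarith
  -- the plane is spanned by e and f
  have hli : LinearIndependent ℝ ![e, f] := by
    rw [LinearIndependent.pair_iff]
    intro s t hst
    have h1 : ⟪e, s • e + t • f⟫ = 0 := by rw [hst, inner_zero_right]
    rw [inner_add_right, inner_smul_right, inner_smul_right, hfe, hee] at h1
    have hs0 : s = 0 := by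
      have h2 : s * b ^ 2 = 0 := by linarith
      rcases mul_eq_zero.1 h2 with h3 | h3
      · exact h3
      · exfalso
        have : 0 < b ^ 2 := by positivity
        linarith
    refine ⟨hs0, ?_⟩
    rw [hs0, zero_smul, zero_add, smul_eq_zero] at hst
    rcases hst with h3 | h3
    · exact h3
    · exact absurd h3 hf_ne
  have hspan : Submodule.span ℝ (Set.range ![e, f]) = U := by
    apply Submodule.eq_of_le_of_finrank_eq
    · rw [Submodule.span_le]
      rintro _ ⟨i, rfl⟩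
      fin_cases i
      · exact heU
      · exact hfU
    · rw [finrank_span_eq_card hli, Fintype.card_fin, hU, hFr.Q_rank x hx]
  have hcomb : ∀ v ∈ U, ∃ α β : ℝ, v = α • e + β • f := by
    intro v hv
    rw [← hspan, Matrix.range_cons, Matrix.range_cons, Matrix.range_empty, Set.union_empty,
      Set.singleton_union, Submodule.mem_span_pair] at hv
    obtain ⟨α, β, h⟩ := hv
    exact ⟨α, β, h.symm⟩
  obtain ⟨τ, τ', hgeq⟩ := hcomb g hgU
  have hff : 0 < ⟪f, f⟫ := by
    rw [real_inner_self_eq_norm_sq]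
    have := norm_pos_iff.2 hf_ne
    positivity
  have hτ' : τ' = 0 := by
    have h1 := hfg
    rw [hgeq, inner_add_right, inner_smul_right, inner_smul_right, real_inner_comm, hfe] at h1
    have h2 : τ' * ⟪f, f⟫ = 0 := by linarith
    rcases mul_eq_zero.1 h2 with h3 | h3
    · exact h3
    · exfalso
      linarith
  rw [hτ', zero_smul, add_zero] at hgeq
  obtain ⟨α, β, hueq⟩ := hcomb u hu
  have hge : 2 * ⟪A e, e⟫ = τ * b ^ 2 := by
    have h1 : ⟪g, e⟫ = τ * b ^ 2 := by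
      rw [hgeq, inner_smul_left, hee]
      rfl
    rw [hg0, inner_add_left, hsw] at h1
    linarith
  have hgg : ⟪g, g⟫ = τ ^ 2 * b ^ 2 := by
    rw [hgeq, inner_smul_left, inner_smul_right, hee]
    simp only [conj_trivial]
    ring
  have hpar : ⟪f, f⟫ + ⟪g, g⟫ = 4 * b ^ 2 := by
    rw [hf0, hg0, inner_sub_left, inner_sub_right, inner_sub_right, inner_add_left,
      inner_add_right, inner_add_right, hAA, hAA']
    ring
  have hmu : ‖A e - e‖ ^ 2 = (2 - τ) * b ^ 2 := by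
    rw [norm_sub_sq_real, hnA, heb]
    linarith
  have hb2 : 0 < b ^ 2 := by positivity
  have hμ0 : 0 < 2 - τ := by
    have h1 : 0 < ‖A e - e‖ ^ 2 := by
      have := norm_pos_iff.2 (sub_ne_zero.2 hAne)
      positivity
    rw [hmu] at h1
    by_contra hcon
    push Not at hcon
    have := mul_nonpos_of_nonpos_of_nonneg hcon hb2.le
    linarith
  have hμ1 : 2 - τ ≤ 4 / 225 := by
    rw [hmu] at hsmall
    exact le_of_mul_le_mul_right hsmall hb2
  have hue : ⟪e, u⟫ = α * b ^ 2 := by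
    rw [hueq, inner_add_right, inner_smul_right, inner_smul_right, hfe, hee]
    ring
  have huf : ⟪f, u⟫ = β * ⟪f, f⟫ := by
    rw [hueq, inner_add_right, inner_smul_right, inner_smul_right, real_inner_comm, hfe]
    ring
  have huu : ‖u‖ ^ 2 = α ^ 2 * b ^ 2 + β ^ 2 * ⟪f, f⟫ := by
    rw [← real_inner_self_eq_norm_sq]
    conv_lhs => rw [hueq]
    rw [inner_add_left, inner_smul_left, inner_smul_left, ← hueq, hue, huf]
    simp only [conj_trivial]
    ring
  have hgu : ⟪g, u⟫ = τ * (α * b ^ 2) := by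
    rw [hgeq, inner_smul_left, hue]
    rfl
  have hp : 0 ≤ ⟪e, u⟫ - ⟪A e, u⟫ := by linarith
  have hq : 0 ≤ ⟪e, u⟫ - ⟪A.symm e, u⟫ := by linarith
  rw [hue]
  refine real_step (p := ⟪e, u⟫ - ⟪A e, u⟫) (q := ⟪e, u⟫ - ⟪A.symm e, u⟫) (μ := 2 - τ)
    (F := ⟪f, f⟫) (β := β) hb hμ0 hμ1 ?_ hp hq ?_ ?_ huu
  · rw [hgg] at hpar
    linarith
  · rw [hg0, inner_add_left] at hgu
    rw [hue]
    linarith
  · rw [hf0, inner_sub_left] at huf
    rw [← hf0] at huf
    linarith

end Pool.Agent.Helper54.Cluster4
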